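import Pool.Agent.T2H86.RC.FIN
import Pool.Agent.T2H86.RC.MUL
import Pool.Agent.T2H86.RC.BOX
import Pool.Agent.T2H86.RC.PRD
import Pool.Agent.T2H86.RC.EXC
import Pool.Agent.T2H86.RC.MON
import Pool.Agent.T2H86.RC.POL
import Pool.Agent.T2H86.RC.LIP
import Pool.Agent.T2H86.RC.MEA
import Pool.Agent.T2H86.RG.IMP
import Pool.Agent.T2H86.RG.LO3
import Pool.Agent.T2H86.RG.SU3
import Pool.Agent.T2H86.RG.MO3
import Pool.Agent.T2H86.RG.BC3

/-!
# MP_21d687_nt: the Lindelöf bound for random quadratic twists

Question 1 asks for the bound `|L(π ⊗ χ_D, 1/2)| ≪ |D|^β`. By the approximate functional equation the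
central value is essentially the sum of `λ(n) χ_D(n) N(n)^(-1/2)` over the ideals of norm at most
`|D|^(1 + o(1))`. Here `χ_D` is replaced by a random completely multiplicative function `X` whose values
`X p` at the primes are independent symmetric random variables with values in `[-1, 1]` (fair signs, or the
values of Granville and Soundararajan, `0` with the probability `1/(N p + 1)`). For all coefficient systems
`λ_i` of a countable family (for instance those of all cuspidal representations of `PGL₂` over a number
field) almost surely, on the whole critical line: for all `A > 0` the sums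
`∑_{N n ≤ x} λ_i(n) X(n) N(n)^(-1/2 - i t)` are `exp (O (√(log x log log x)))`, uniformly for `|t| ≤ x^A`.
This is the Lindelöf bound in the strong form conjectured by Farmer, Gonek and Hughes.

Idea of the proof: the moments of order `2k` are expectations of products `X(n_1) ⋯ X(n_2k)`, which are
nonnegative, so that the coefficients may be replaced by their absolute values and the range of summation may
be enlarged to the ideals with all primes of norm at most `x`. The resulting Euler product is
`exp (O (k² log log x))`, uniformly in `k`, by the Rankin-Selberg bound. Then use the lemma of Borel and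
Cantelli with `k = √(log x / log log x)` for a net of points `t`.
-/

set_option autoImplicit false

namespace Pool.Agent.Results.MP_21d687_nt.RandomCharacters

open MeasureTheory ProbabilityTheory Pool.Agent.T2H86.RC Pool.Agent.T2H86.RG

/-- Let `q` be the norms of a system of primes, `lam i` (`i` in a countable set) coefficient systems and
`X p` independent symmetric random variables with values in `[-1, 1]`. Almost surely, for all `i` and all
`A > 0` there is `C` such that
`|∑_{N n ≤ x} λ_i(n) X(n) N(n)^(-1/2 - i t)| ≤ exp (C √(log x log log x))` for all `x ≥ 3` and all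
`|t| ≤ x^A`. -/
theorem result {P Ω ι : Type} [Countable ι] [MeasurableSpace Ω] (μ : Measure Ω)
    [IsProbabilityMeasure μ] (X : P → Ω → ℝ) (hX : Model μ X) (q : P → ℕ) (hq : Primes q)
    (lam : ι → (P →₀ ℕ) → ℂ) (hlam : ∀ i, Coeffs q (lam i)) :
    ∀ᵐ ω ∂μ, ∀ (i : ι) (A : ℝ), 0 < A → ∃ C : ℝ, ∀ x : ℕ, 3 ≤ x → ∀ t : ℝ,
      |t| ≤ (x : ℝ) ^ A → ‖centralSum q (lam i) (fun p => X p ω) x t‖ ≤
        Real.exp (C * Real.sqrt (Real.log x * Real.log (Real.log x))) := by
  rw [ae_all_iff]
  intro i
  have hq' : PrimeSystem q := pIMP.1 q hq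
  have hlam' : CoeffSystem q (lam i) := pIMP.2 q (lam i) (hlam i)
  have hMO3 : S_MO3 := pMO3 pFIN pMUL pBOX pPRD (pMON (pEXC pPRD)) pIMP pLO3 pSU3
  have hPOL : S_POL := pPOL pFIN pMUL pBOX
  have hLIP : S_LIP := pLIP pFIN hPOL
  obtain ⟨K, hK, hK1⟩ := hLIP q hq' (lam i) hlam'
  exact pBC3 μ (fun x t ω => centralSum q (lam i) (fun p => X p ω) x t)
    (fun x t => pMEA pFIN μ X hX q hq' (lam i) x t)
    (hMO3 μ X hX q hq (lam i) (hlam i))
    ⟨K, hK, fun x hx ω => hK1 (fun p => X p ω) (fun p => hX.bdd p ω) x hx⟩

end Pool.Agent.Results.MP_21d687_nt.RandomCharacters
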